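import Pool.Agent.Helper5.SX.St

set_option autoImplicit false

namespace Pool.Agent.Helper62.SX

open _root_.SX
open Finset
open scoped Classical

theorem geo (n q : ℕ) (d : ℕ → ℕ) (hd : ∀ i, d i + 1 ≤ q) (j l : ℕ) (hjl : j < l) :
    l ≤ n → ∑ i ∈ range l, d i * q ^ (n - i) + q ^ (n - l + 1)
      ≤ ∑ i ∈ range j, d i * q ^ (n - i) + (d j + 1) * q ^ (n - j) := by
  induction l, hjl using Nat.le_induction with
  | base =>
    intro hl
    rw [sum_range_succ, show n - (j + 1) + 1 = n - j by omega]
    apply le_of_eq
    ring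
  | succ l hjl ih =>
    intro hl
    refine le_trans ?_ (ih (by omega))
    rw [sum_range_succ, show n - (l + 1) + 1 = n - l by omega]
    have h1 : (d l + 1) * q ^ (n - l) ≤ q * q ^ (n - l) := Nat.mul_le_mul_right _ (hd l)
    have h2 : q ^ (n - l + 1) = q * q ^ (n - l) := by rw [pow_succ]; ring
    rw [h2]
    nlinarith

theorem lf_card {V : Type} [Fintype V] (A : Dat V) (c : V → ℕ) (v : V) :
    (Lf A c v).card ≤ Fintype.card V := card_le_univ _

theorem hVAL : StVAL := by
  intro V _ A
  refine ⟨?_, ?_⟩
  · intro c c' y l j hl hj heq hlt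
    unfold _root_.SX.val
    have hg := geo (Fintype.card V) (Fintype.card V + 2)
      (fun i => Fintype.card V + 1 - (Lf A c (y i)).card) (fun i => by omega) j l hj hl
    have hpos : 0 < (Fintype.card V + 2) ^ (Fintype.card V - l + 1) := Nat.pow_pos (by omega)
    rw [sum_range_succ]
    have h1 : ∑ i ∈ range j, (Fintype.card V + 1 - (Lf A c' (y i)).card) *
        (Fintype.card V + 2) ^ (Fintype.card V - i) =
        ∑ i ∈ range j, (Fintype.card V + 1 - (Lf A c (y i)).card) *
        (Fintype.card V + 2) ^ (Fintype.card V - i) := by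
      apply sum_congr rfl
      intro i hi
      rw [heq i (mem_range.1 hi)]
    rw [h1]
    have h2 : Fintype.card V + 1 - (Lf A c (y j)).card + 1
        ≤ Fintype.card V + 1 - (Lf A c' (y j)).card := by
      have := lf_card A c (y j)
      omega
    have h3 := Nat.mul_le_mul_right ((Fintype.card V + 2) ^ (Fintype.card V - j)) h2
    omega
  · intro c y y' l heq
    unfold _root_.SX.val
    rw [sum_range_succ]
    have h1 : ∑ i ∈ range l, (Fintype.card V + 1 - (Lf A c (y' i)).card) *
        (Fintype.card V + 2) ^ (Fintype.card V - i) =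
        ∑ i ∈ range l, (Fintype.card V + 1 - (Lf A c (y i)).card) *
        (Fintype.card V + 2) ^ (Fintype.card V - i) := by
      apply sum_congr rfl
      intro i hi
      rw [heq i (mem_range.1 hi)]
    rw [h1]
    have h2 : 0 < (Fintype.card V + 1 - (Lf A c (y' l)).card) *
        (Fintype.card V + 2) ^ (Fintype.card V - l) := by
      apply Nat.mul_pos
      · have := lf_card A c (y' l)
        omega
      · exact Nat.pow_pos (by omega)
    omega

end Pool.Agent.Helper62.SX
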